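import Pool.Agent.Helper75.PX.Stmts2

/-!
PX, row RK3 (helper74): the rank of the antisymmetrizer on three factors.
-/

set_option autoImplicit false

namespace Pool.Agent.Helper75.PX

universe u

namespace Rk74

/-- increasing triples -/
def Inc {n : ℕ} (p : (Fin n × Fin n) × Fin n) : Prop := p.1.1 < p.1.2 ∧ p.1.2 < p.2

instance {n : ℕ} (p : (Fin n × Fin n) × Fin n) : Decidable (Inc p) :=
  inferInstanceAs (Decidable (_ ∧ _))

theorem sum_choose (n : ℕ) : ∑ k ∈ Finset.range n, k.choose 2 = n.choose 3 := by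
  induction n with
  | zero => rfl
  | succ n ih =>
    rw [Finset.sum_range_succ, ih, Nat.choose_succ_succ n 2, add_comm]

theorem card_inc (n : ℕ) :
    Fintype.card {p : (Fin n × Fin n) × Fin n // Inc p} = n.choose 3 := by
  classical
  rw [Fintype.card_subtype, Finset.card_filter, Fintype.sum_prod_type_right]
  have h : ∀ k : Fin n, (∑ x : Fin n × Fin n, if Inc (x, k) then 1 else 0) =
      (k : ℕ).choose 2 := by
    intro k
    rw [Fintype.sum_prod_type_right]
    have h1 : ∀ j : Fin n, (∑ i : Fin n, if Inc ((i, j), k) then 1 else 0) =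
        if (j : ℕ) < k then (j : ℕ) else 0 := by
      intro j
      by_cases hjk : (j : ℕ) < k
      · rw [if_pos hjk, ← Finset.card_filter]
        have h2 : Finset.filter (fun i : Fin n => Inc ((i, j), k)) Finset.univ =
            Finset.Iio j := by
          ext i
          simp only [Finset.mem_filter, Finset.mem_univ, true_and, Finset.mem_Iio]
          exact ⟨fun h => h.1, fun h => ⟨h, hjk⟩⟩
        rw [h2, Fin.card_Iio]
      · rw [if_neg hjk]
        refine Finset.sum_eq_zero fun i _ => if_neg ?_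
        intro h
        exact hjk h.2
    rw [Finset.sum_congr rfl fun j _ => h1 j,
      Fin.sum_univ_eq_sum_range (fun j => if j < (k : ℕ) then j else 0) n, ← Finset.sum_filter]
    have h3 : (Finset.range n).filter (fun j => j < (k : ℕ)) = Finset.range k := by
      ext j
      simp only [Finset.mem_filter, Finset.mem_range]
      have := k.2
      omega
    rw [h3, Finset.sum_range_id, Nat.choose_two_right]
  rw [Finset.sum_congr rfl fun k _ => h k, Fin.sum_univ_eq_sum_range (fun k => k.choose 2) n,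
    sum_choose]

/-- indicator -/
def ind (Ω : Type u) [Field Ω] {n : ℕ} (p q : (Fin n × Fin n) × Fin n) : Ω :=
  if p = q then 1 else 0

theorem ind_self (Ω : Type u) [Field Ω] {n : ℕ} (p : (Fin n × Fin n) × Fin n) :
    ind Ω p p = 1 := if_pos rfl

theorem ind_ne (Ω : Type u) [Field Ω] {n : ℕ} {p q : (Fin n × Fin n) × Fin n} (h : p ≠ q) :
    ind Ω p q = 0 := if_neg h

theorem Pm_mul (Ω : Type u) [Field Ω] {n : ℕ}
    (f g : (Fin n × Fin n) × Fin n → (Fin n × Fin n) × Fin n) :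
    Pm Ω f * Pm Ω g = Pm Ω (g ∘ f) := by
  ext p q
  rw [Matrix.mul_apply, Finset.sum_eq_single (f p)]
  · simp [Pm]
  · intro r _ hr
    have : Pm Ω f p r = 0 := if_neg (fun h => hr h.symm)
    rw [this, zero_mul]
  · intro h
    exact absurd (Finset.mem_univ _) h

theorem entry (Ω : Type u) [Field Ω] (n : ℕ) (p q : (Fin n × Fin n) × Fin n) :
    E3 Ω n p q = ind Ω p q - ind Ω (fl12 n p) q - ind Ω (fl23 n p) q +
      ind Ω (fl23 n (fl12 n p)) q + ind Ω (fl12 n (fl23 n p)) q -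
      ind Ω (fl12 n (fl23 n (fl12 n p))) q := by
  unfold E3
  rw [Pm_mul, Pm_mul, Pm_mul]
  rfl

/-- the row -/
def row (Ω : Type u) [Field Ω] (n : ℕ) (p : (Fin n × Fin n) × Fin n) :
    (Fin n × Fin n) × Fin n → Ω := fun q => E3 Ω n p q

theorem row12 (Ω : Type u) [Field Ω] (n : ℕ) (p : (Fin n × Fin n) × Fin n) :
    row Ω n p = -row Ω n (fl12 n p) := by
  funext q
  change E3 Ω n p q = -E3 Ω n (fl12 n p) q
  rw [entry, entry]
  have e1 : fl12 n (fl12 n p) = p := rfl
  rw [e1]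
  ring

theorem row23 (Ω : Type u) [Field Ω] (n : ℕ) (p : (Fin n × Fin n) × Fin n) :
    row Ω n p = -row Ω n (fl23 n p) := by
  funext q
  change E3 Ω n p q = -E3 Ω n (fl23 n p) q
  rw [entry, entry]
  have e1 : fl23 n (fl23 n p) = p := rfl
  have e2 : fl23 n (fl12 n (fl23 n p)) = fl12 n (fl23 n (fl12 n p)) := rfl
  have e3 : fl12 n (fl12 n (fl23 n (fl12 n p))) = fl23 n (fl12 n p) := rfl
  rw [e1, e2, e3]
  ring

theorem row_eq12 (Ω : Type u) [Field Ω] (n : ℕ) (i k : Fin n) :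
    row Ω n ((i, i), k) = 0 := by
  funext q
  change E3 Ω n ((i, i), k) q = 0
  rw [entry]
  have e1 : fl12 n ((i, i), k) = ((i, i), k) := rfl
  rw [e1]
  ring

theorem row_eq23 (Ω : Type u) [Field Ω] (n : ℕ) (i k : Fin n) :
    row Ω n ((i, k), k) = 0 := by
  funext q
  change E3 Ω n ((i, k), k) q = 0
  rw [entry]
  have e1 : fl23 n ((i, k), k) = ((i, k), k) := rfl
  have e2 : fl12 n (fl23 n (fl12 n ((i, k), k))) = fl23 n (fl12 n ((i, k), k)) := rfl
  rw [e1, e2]
  ring

theorem row_eq13 (Ω : Type u) [Field Ω] (n : ℕ) (i j : Fin n) :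
    row Ω n ((i, j), i) = 0 := by
  rw [row12]
  have e1 : fl12 n ((i, j), i) = ((j, i), i) := rfl
  rw [e1, row_eq23, neg_zero]

theorem mem_span (Ω : Type u) [Field Ω] (n : ℕ) (p : (Fin n × Fin n) × Fin n) :
    row Ω n p ∈ Submodule.span Ω (Set.range fun q : {p : (Fin n × Fin n) × Fin n // Inc p} =>
      row Ω n q.1) := by
  obtain ⟨S, hS⟩ : ∃ S, S = Submodule.span Ω
    (Set.range fun q : {p : (Fin n × Fin n) × Fin n // Inc p} => row Ω n q.1) := ⟨_, rfl⟩
  rw [← hS]
  have h0 : ∀ q, Inc q → row Ω n q ∈ S := by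
    intro q hq
    rw [hS]
    exact Submodule.subset_span ⟨⟨q, hq⟩, rfl⟩
  have s12 : ∀ q, row Ω n (fl12 n q) ∈ S → row Ω n q ∈ S := by
    intro q hq
    rw [row12]
    exact Submodule.neg_mem _ hq
  have s23 : ∀ q, row Ω n (fl23 n q) ∈ S → row Ω n q ∈ S := by
    intro q hq
    rw [row23]
    exact Submodule.neg_mem _ hq
  obtain ⟨⟨i, j⟩, k⟩ := p
  rcases lt_trichotomy i j with h1 | h1 | h1
  · rcases lt_trichotomy j k with h2 | h2 | h2
    · exact h0 _ ⟨h1, h2⟩
    · rw [h2, row_eq23]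
      exact Submodule.zero_mem _
    · rcases lt_trichotomy i k with h3 | h3 | h3
      · exact s23 _ (h0 _ ⟨h3, h2⟩)
      · rw [h3, row_eq13]
        exact Submodule.zero_mem _
      · exact s23 _ (s12 _ (h0 _ ⟨h3, h1⟩))
  · rw [h1, row_eq12]
    exact Submodule.zero_mem _
  · rcases lt_trichotomy i k with h2 | h2 | h2
    · exact s12 _ (h0 _ ⟨h1, h2⟩)
    · rw [h2, row_eq13]
      exact Submodule.zero_mem _
    · rcases lt_trichotomy j k with h3 | h3 | h3
      · exact s12 _ (s23 _ (h0 _ ⟨h3, h2⟩))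
      · rw [h3, row_eq23]
        exact Submodule.zero_mem _
      · exact s12 _ (s23 _ (s12 _ (h0 _ ⟨h3, h1⟩)))

theorem span_eq (Ω : Type u) [Field Ω] (n : ℕ) :
    Submodule.span Ω (Set.range (E3 Ω n).row) =
      Submodule.span Ω (Set.range fun q : {p : (Fin n × Fin n) × Fin n // Inc p} =>
        row Ω n q.1) := by
  apply le_antisymm
  · rw [Submodule.span_le]
    rintro _ ⟨p, rfl⟩
    exact mem_span Ω n p
  · apply Submodule.span_mono
    rintro _ ⟨q, rfl⟩
    exact ⟨q.1, rfl⟩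

theorem indep (Ω : Type u) [Field Ω] (n : ℕ) :
    LinearIndependent Ω (fun q : {p : (Fin n × Fin n) × Fin n // Inc p} => row Ω n q.1) := by
  classical
  rw [Fintype.linearIndependent_iff]
  have key : ∀ p q : (Fin n × Fin n) × Fin n, Inc p → Inc q → row Ω n p q = ind Ω p q := by
    rintro ⟨⟨i, j⟩, k⟩ ⟨⟨a, b⟩, c⟩ ⟨h1, h2⟩ ⟨h3, h4⟩
    change i < j at h1
    change j < k at h2
    change a < b at h3
    change b < c at h4
    change E3 Ω n ((i, j), k) ((a, b), c) = _
    rw [entry]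
    have n1 : fl12 n ((i, j), k) ≠ ((a, b), c) := by
      intro h
      obtain ⟨h5, rfl⟩ := Prod.mk.inj h
      obtain ⟨rfl, rfl⟩ := Prod.mk.inj h5
      exact lt_asymm h1 h3
    have n2 : fl23 n ((i, j), k) ≠ ((a, b), c) := by
      intro h
      obtain ⟨h5, rfl⟩ := Prod.mk.inj h
      obtain ⟨rfl, rfl⟩ := Prod.mk.inj h5
      exact lt_asymm h2 h4
    have n3 : fl23 n (fl12 n ((i, j), k)) ≠ ((a, b), c) := by
      intro h
      obtain ⟨h5, rfl⟩ := Prod.mk.inj h
      obtain ⟨rfl, rfl⟩ := Prod.mk.inj h5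
      exact lt_asymm (h1.trans h2) h4
    have n4 : fl12 n (fl23 n ((i, j), k)) ≠ ((a, b), c) := by
      intro h
      obtain ⟨h5, rfl⟩ := Prod.mk.inj h
      obtain ⟨rfl, rfl⟩ := Prod.mk.inj h5
      exact lt_asymm (h1.trans h2) h3
    have n5 : fl12 n (fl23 n (fl12 n ((i, j), k))) ≠ ((a, b), c) := by
      intro h
      obtain ⟨h5, rfl⟩ := Prod.mk.inj h
      obtain ⟨rfl, rfl⟩ := Prod.mk.inj h5
      exact lt_asymm h2 h3
    rw [ind_ne Ω n1, ind_ne Ω n2, ind_ne Ω n3, ind_ne Ω n4, ind_ne Ω n5]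
    ring
  intro c hc q0
  have h := congrFun hc q0.1
  rw [Finset.sum_apply, Finset.sum_eq_single q0] at h
  · change c q0 * row Ω n q0.1 q0.1 = 0 at h
    rw [key _ _ q0.2 q0.2, ind_self, mul_one] at h
    exact h
  · intro q _ hq
    change c q * row Ω n q.1 q0.1 = 0
    rw [key _ _ q.2 q0.2, ind_ne Ω (fun h2 => hq (Subtype.ext h2)), mul_zero]
  · intro h1
    exact absurd (Finset.mem_univ _) h1

end Rk74

theorem st_RK3 : ST_RK3.{u} := by
  intro Ω _ n
  rw [Matrix.rank_eq_finrank_span_row, Rk74.span_eq, finrank_span_eq_card (Rk74.indep Ω n),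
    Rk74.card_inc]

end Pool.Agent.Helper75.PX
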